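import Pool.Agent.V11258.DW.Main

/-! MP_decccb_lc: the dimension statement holds for every binary subtree. -/

namespace Pool.Agent.Results.MP_decccb_lc.AllSubtrees

open V11258.DW
open scoped ENNReal

attribute [local instance] cantorMetric

theorem result (T : Set (List Bool)) (hT : IsSubtree T) (hd : 1 / 2 < dimH (canopy T))
    (δ : ℝ≥0∞) (h1 : 1 / 2 ≤ δ) (h2 : δ ≤ dimH (canopy T)) :
    ∃ W WI WII : Set (ℕ → Bool), W ⊆ canopy T ∧ WI ⊆ canopy T ∧ WII ⊆ canopy T ∧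
      dimH W = δ ∧ dimH WI = δ ∧ dimH WII = δ ∧
      ¬ WinsI T W ∧ ¬ WinsII T W ∧ WinsI T WI ∧ WinsII T WII :=
  main T hT hd δ h1 h2

end Pool.Agent.Results.MP_decccb_lc.AllSubtrees
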